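import Pool.Agent.TH133.DefsAJ
import Pool.Agent.TH133.DefsHodge

/-!
# Products of algebraically trivial and homologically trivial cycles: definitions
-/

open CategoryTheory AlgebraicGeometry

universe u v w

namespace Pool.Agent.TH127.PD

open Pool.Agent.H914 Pool.Agent.H914.VarClass Pool.Agent.H914.VarClass.Obj Pool.Agent.W492.BB
  Pool.Agent.W550.Corr Pool.Agent.TH133

variable {k : Type u} [Field k] {𝒱 : VarClass k} {C : TheoryData.{u, v, 0} 𝒱 ℚ} {K : Type w}
  [Field K] {H : WeilTheoryData.{u, v, w} C K}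

/-- All Abel-Jacobi maps are injective (on homologically trivial cycles with rational
coefficients). -/
def AJInjective (T : AbelJacobi H) : Prop :=
  ∀ (X : 𝒱.Obj) (i : ℕ) (z : C.A X), T.Ker i z → z = 0

/-- The Abel-Jacobi map of `X` in codimension `i` is injective on the algebraically trivial
cycles. -/
def InjectiveOnAlg (T : AbelJacobi H) (X : 𝒱.Obj) (i : ℕ) : Prop :=
  ∀ z : C.A X, AlgTrivial C i z → T.Ker i z → z = 0

/-- Homologically trivial `Γ ∈ CH^i(B × X)`, where `B` is a curve, act as zero on the Jacobian of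
`B`: `Γ_* c = 0` for each zero-cycle `c` of degree zero on `B`. -/
def KillJacobians (H : WeilTheoryData.{u, v, w} C K) (X : 𝒱.Obj) (i : ℕ) : Prop :=
  ∀ (B : 𝒱.Obj) (c : C.A B) (Γ : C.A (B.prod X)), B.dim = 1 → C.Deg 1 c → HasDegree C c 0 →
    Γ ∈ homTriv H (B.prod X) i → C.act Γ c = 0

/-- The kernels of all Abel-Jacobi maps consist of algebraically trivial cycles. -/
def KerInAlg (T : AbelJacobi H) : Prop :=
  ∀ (X : 𝒱.Obj) (i : ℕ) (z : C.A X), T.Ker i z → AlgTrivial C i z

/-- `D w = 0` for all `X`, all algebraically trivial divisor classes `D` on `X` (the elements of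
`Pic^0(X)`, with rational coefficients) and all homologically trivial cycles `w` on `X`. -/
def DivisorProductsVanish (H : WeilTheoryData.{u, v, w} C K) : Prop :=
  ∀ (X : 𝒱.Obj) (i : ℕ) (D w : C.A X), AlgTrivial C 1 D → w ∈ homTriv H X i → C.mul D w = 0

/-- The exterior product `z × w` in `CH(X × Y)` vanishes for all `X`, `Y`, all algebraically trivial
cycles `z` on `X` and all homologically trivial cycles `w` on `Y`. -/
def ExteriorProductsVanish (H : WeilTheoryData.{u, v, w} C K) : Prop :=
  ∀ (X Y : 𝒱.Obj) (i j : ℕ) (z : C.A X) (w : C.A Y), AlgTrivial C i z → w ∈ homTriv H Y j →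
    C.ext z w = 0

/-- Homologically trivial correspondences, of any degree, act as zero on algebraically trivial
cycles: `Γ_* z = 0` for all `X`, `Y`, homologically trivial `Γ` on `X × Y` and algebraically
trivial `z` on `X`. -/
def HomTrivialKillAlg (H : WeilTheoryData.{u, v, w} C K) : Prop :=
  ∀ (X Y : 𝒱.Obj) (i l : ℕ) (Γ : C.A (X.prod Y)) (z : C.A X), Γ ∈ homTriv H (X.prod Y) l →
    AlgTrivial C i z → C.act Γ z = 0

end Pool.Agent.TH127.PD
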