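import Pool.Agent.TH127.PD.Defs
import Pool.Agent.TH116.ZC.AJ

/-!
# Products of algebraically trivial and homologically trivial cycles
-/

open CategoryTheory AlgebraicGeometry

universe u v w

namespace Pool.Agent.TH127.PD

open Pool.Agent.H914 Pool.Agent.H914.VarClass Pool.Agent.H914.VarClass.Obj Pool.Agent.W492.BB
  Pool.Agent.W550.Corr Pool.Agent.TH133 Pool.Agent.TH116.ZC

set_option linter.unusedSectionVars false

variable {k : Type u} [Field k] {𝒱 : VarClass k} {C : TheoryData.{u, v, 0} 𝒱 ℚ}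
  [hC : IsChowProj C] {K : Type w} [Field K]
  {H : WeilTheoryData.{u, v, w} C K} [hH : IsWeilProj H] {X Y Z W : 𝒱.Obj}

include hC

/-- A zero-cycle of degree zero on a curve is algebraically trivial. -/
lemma algTrivial_curve {B : 𝒱.Obj} (hB : B.dim = 1) {c : C.A B} (hc : C.Deg 1 c)
    (hd : HasDegree C c 0) : AlgTrivial C 1 c := by
  refine Or.inr ⟨B, c, dg C B, hB, hc, hd, ?_, (act_dg C c).symm⟩
  have := dg_mem C B
  rw [hB] at this
  exact_mod_cast this

/-- Correspondences respect algebraically trivial cycles. -/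
lemma algTrivial_act {i j l : ℕ} {Γ : C.A (X.prod Y)} (hΓ : C.Deg l Γ)
    (hij : i + l = j + X.dim) {z : C.A X} (hz : AlgTrivial C i z) :
    AlgTrivial C j (C.act Γ z) := by
  rcases hz with rfl | ⟨B, c, Δ, hB, hc, hd, hΔ, rfl⟩
  · exact Or.inl (C.act_map_zero Γ)
  · refine Or.inr ⟨B, c, C.comp Δ Γ, hB, hc, hd, ?_, (C.act_comp Δ Γ c).symm⟩
    have h1 : Δ ∈ C.gr (B.prod X) (B.dim + ((i : ℤ) - B.dim)) := by
      have e1 : (B.dim : ℤ) + ((i : ℤ) - B.dim) = i := by ring
      rw [e1]; exact hΔ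
    have h2 : Γ ∈ C.gr (X.prod Y) (X.dim + ((l : ℤ) - X.dim)) := by
      have e1 : (X.dim : ℤ) + ((l : ℤ) - X.dim) = l := by ring
      rw [e1]; exact hΓ
    have h3 := comp_mem C h1 h2
    have e3 : (B.dim : ℤ) + (((i : ℤ) - B.dim) + ((l : ℤ) - X.dim)) = j := by omega
    rwa [e3] at h3

/-- Pull-backs respect algebraically trivial cycles. -/
lemma algTrivial_pull (H : WeilTheoryData.{u, v, w} C K) [hH : IsWeilProj H] (f : X ⟶ Y) {i : ℕ}
    {z : C.A Y} (hz : AlgTrivial C i z) : AlgTrivial C i (C.pull f z) := by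
  obtain ⟨Γ, hΓ, h1, -⟩ := Realised.pull (H := H) f
  rw [add_zero] at hΓ
  have := algTrivial_act (l := Y.dim) (j := i) (by exact_mod_cast hΓ) rfl hz
  rwa [h1] at this

include hH

/-- Algebraically trivial cycles are homologically trivial. -/
lemma homTriv_of_alg {i : ℕ} {z : C.A X} (hz : AlgTrivial C i z) : z ∈ homTriv H X i := by
  rcases hz with rfl | ⟨B, c, Δ, hB, hc, hd, hΔ, rfl⟩
  · exact Submodule.zero_mem _
  · refine ⟨?_, cl_act_zero (cl_zero_of_degree (H := H) (by rw [hB]; exact_mod_cast hc) hd)⟩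
    have h1 : Δ ∈ C.gr (B.prod X) (B.dim + ((i : ℤ) - B.dim)) := by
      have e1 : (B.dim : ℤ) + ((i : ℤ) - B.dim) = i := by ring
      rw [e1]; exact hΔ
    have h2 := act_mem' C h1 hc
    have e2 : (1 : ℤ) + ((i : ℤ) - B.dim) = i := by rw [hB]; ring
    rwa [e2] at h2

/-- The action of a homologically trivial class on cohomology is zero. -/
lemma actH_zero {Γ : C.A (X.prod Y)} (h : H.cl Γ = 0) (a : H.A X) : H.act (H.cl Γ) a = 0 := by
  rw [h, TheoryData.act_zero]

/-- Under the injectivity of the Abel-Jacobi maps on algebraically trivial cycles, homologically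
trivial correspondences act as zero on algebraically trivial cycles. -/
lemma killAlg_of_injective {T : AbelJacobi H} (hT : T.IsFunctorial) 
    (h : ∀ (X : 𝒱.Obj) (i : ℕ), InjectiveOnAlg T X i) : HomTrivialKillAlg H := by
  intro X Y i l Γ z hΓ hz
  have hzm := (homTriv_of_alg (H := H) hz).1
  have h1 : Γ ∈ C.gr (X.prod Y) (X.dim + ((l : ℤ) - X.dim)) := by
    have e1 : (X.dim : ℤ) + ((l : ℤ) - X.dim) = l := by ring
    rw [e1]; exact hΓ.1
  by_cases hj : X.dim ≤ i + l
  · obtain ⟨j, hj⟩ : ∃ j, i + l = j + X.dim := ⟨i + l - X.dim, by omega⟩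
    refine h Y j _ (algTrivial_act hΓ.1 hj hz) ?_
    exact ker_of_kills hT hΓ.1 hj (fun a _ => actH_zero hΓ.2 a) (homTriv_of_alg hz)
  · have h2 := act_mem' C h1 hzm
    rw [C.gr_neg Y _ (by omega)] at h2
    exact (Submodule.mem_bot _).1 h2

lemma ext_of_killAlg (h : HomTrivialKillAlg H) : ExteriorProductsVanish H := by
  intro X Y i j z w hz hw
  obtain ⟨A, hA, hA1, hA2⟩ := exists_ext (H := H) hw.1 X
  have hcl : H.cl A = 0 := by
    apply eq_zero_of_act
    intro a
    rw [hA2, hw.2, map_zero, zero_mul]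
  rw [← hA1]
  exact h X (X.prod Y) i _ A z ⟨hA, hcl⟩ hz

omit hH in
lemma pull_diag_ext (z w : C.A X) :
    C.pull (Obj.lift (𝟙 X) (𝟙 X)) (C.ext z w) = z * w := by
  rw [TheoryData.ext, map_mul, ← C.pull_comp, ← C.pull_comp, lift_fst, lift_snd, C.pull_id,
    C.pull_id]

lemma divisor_of_ext (h : ExteriorProductsVanish H) : DivisorProductsVanish H := by
  intro X i D w hD hw
  change D * w = 0
  rw [← pull_diag_ext, h X X 1 i D w hD hw, map_zero]

/-- The class `Γ_* c`, `c` of degree zero on a curve, is `Γ'_* c` for a homologically trivial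
`Γ'` if it lies in the kernel of the Abel-Jacobi map. -/
lemma exists_homTriv {B : 𝒱.Obj} (hB : B.dim = 1) {c : C.A B} (hc : C.Deg 1 c)
    (hd : HasDegree C c 0) {i : ℕ} {Γ : C.A (B.prod X)} (hΓ : C.Deg i Γ)
    {e : C.A (B.prod B)} (he : C.Deg 1 e) (hec : C.act e c = c)
    (hkill : ∀ a : H.A B, H.Deg 1 a → H.act (H.cl (C.comp e Γ)) a = 0) :
    ∃ Γ' ∈ homTriv H (B.prod X) i, C.act Γ' c = C.act Γ c := by
  obtain ⟨τ, hτ, hτc⟩ := exists_CK_curve (C := C) H B hB
  have m1 : τ 1 ∈ C.gr (B.prod B) (B.dim + 0) := by rw [add_zero]; exact hτ.deg 1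
  have me : e ∈ C.gr (B.prod B) (B.dim + 0) := by
    rw [add_zero, hB]; exact_mod_cast he
  have mΓ : Γ ∈ C.gr (B.prod X) (B.dim + ((i : ℤ) - B.dim)) := by
    have e1 : (B.dim : ℤ) + ((i : ℤ) - B.dim) = i := by ring
    rw [e1]; exact hΓ
  have m2 := comp_mem C m1 (comp_mem C me mΓ)
  have e2 : (B.dim : ℤ) + (0 + (0 + ((i : ℤ) - B.dim))) = i := by ring
  rw [e2] at m2
  refine ⟨C.comp (τ 1) (C.comp e Γ), ⟨m2, ?_⟩, ?_⟩
  · change H.cl _ = 0
    apply eq_zero_of_act
    intro a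
    have h3 := cl_comp (H := H) (τ 1) (C.comp e Γ)
    have h4 : H.actL (H.cl (C.comp (τ 1) (C.comp e Γ))) = 0 := by
      apply ext_gr H
      intro j b hb
      rw [LinearMap.zero_apply, TheoryData.actL_apply, h3, H.act_comp]
      by_cases hj : j = 1
      · subst hj
        rw [hτ.act_self 1 b (by exact_mod_cast hb)]
        exact hkill b hb
      · rw [hτ.act_ne 1 j b (by exact_mod_cast hj) hb, TheoryData.act_map_zero]
    exact LinearMap.congr_fun h4 a
  · rw [C.act_comp, hτc c hc hd, if_pos rfl, C.act_comp, hec]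

/-- **Pointwise criterion.** -/
theorem injectiveOnAlg_iff {T : AbelJacobi H} (hT : T.IsFunctorial) (hT' : T.HasCurveProjectors)
    (X : 𝒱.Obj) (i : ℕ) : InjectiveOnAlg T X i ↔ KillJacobians H X i := by
  constructor
  · intro h B c Γ hB hc hd hΓ
    refine h _ (Or.inr ⟨B, c, Γ, hB, hc, hd, hΓ.1, rfl⟩) ?_
    have hc' : C.Deg (1 : ℕ) c := by exact_mod_cast hc
    refine ker_of_kills hT (i := 1) (l := i) hΓ.1 (by rw [hB]; ring)
      (fun a _ => actH_zero hΓ.2 a) (homTriv_of_alg (algTrivial_curve hB hc hd))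
  · rintro h z (rfl | ⟨B, c, Γ, hB, hc, hd, hΓ, rfl⟩) hz
    · rfl
    obtain ⟨e, he, hec, hkill⟩ := hT' B X i c Γ hB hc hd hΓ hz
    obtain ⟨Γ', hΓ', h1⟩ := exists_homTriv hB hc hd hΓ he hec hkill
    rw [← h1]
    exact h B c Γ' hB hc hd hΓ'

lemma killJacobians_of_divisor (h : DivisorProductsVanish H) (X : 𝒱.Obj) (i : ℕ) :
    KillJacobians H X i := by
  intro B c Γ hB hc hd hΓ
  have h1 : AlgTrivial C 1 (C.pull (fst B X) c) :=
    algTrivial_pull H (fst B X) (algTrivial_curve hB hc hd)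
  have h2 := h (B.prod X) i _ Γ h1 hΓ
  change C.pull (fst B X) c * Γ = 0 at h2
  rw [TheoryData.act_apply, ch_comm C, h2, map_zero]

/-- **Abel-Jacobi maps are injective on algebraically trivial cycles iff products vanish.** -/
theorem alg_tfae {T : AbelJacobi H} (hT : T.IsFunctorial) (hT' : T.HasCurveProjectors) :
    List.TFAE [∀ (X : 𝒱.Obj) (i : ℕ), InjectiveOnAlg T X i, DivisorProductsVanish H,
      ExteriorProductsVanish H, HomTrivialKillAlg H] := by
  tfae_have 1 → 4 := killAlg_of_injective hT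
  tfae_have 4 → 3 := ext_of_killAlg
  tfae_have 3 → 2 := divisor_of_ext
  tfae_have 2 → 1 := fun h X i =>
    (injectiveOnAlg_iff hT hT' X i).2 (killJacobians_of_divisor h X i)
  tfae_finish

/-- **Injectivity of the Abel-Jacobi maps.** -/
theorem injective_iff {T : AbelJacobi H} (hT : T.IsFunctorial) (hT' : T.HasCurveProjectors) :
    AJInjective T ↔ KerInAlg T ∧ DivisorProductsVanish H := by
  constructor
  · intro h
    exact ⟨fun X i z hz => Or.inl (h X i z hz),
      ((alg_tfae hT hT').out 0 1).1 fun X i z _ hz => h X i z hz⟩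
  · rintro ⟨h1, h2⟩ X i z hz
    have h3 : ∀ (X : 𝒱.Obj) (i : ℕ), InjectiveOnAlg T X i :=
      ((alg_tfae hT hT').out 0 1).2 h2
    exact h3 X i z (h1 X i z hz) hz

end Pool.Agent.TH127.PD
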